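import Mathlib

namespace Pool.Agent.P.MP_0f810e_lc

open Matrix

/-- twice the signed area of the triangle `a b c` -/
def orient (a b c : Fin 2 → ℝ) : ℝ := (b 0 - a 0) * (c 1 - a 1) - (b 1 - a 1) * (c 0 - a 0)

/-- `G` contains the boundary cycle `0, 1, …, N - 1` -/
def Braced {N : ℕ} (G : SimpleGraph (Fin N)) : Prop :=
  3 ≤ N ∧ ∀ i j : Fin N, (j : ℕ) = (i + 1) % N → G.Adj i j

/-- the points are, in this cyclic order, the vertices of a strictly convex polygon -/
def StrictlyConvex {N : ℕ} (p : Fin N → Fin 2 → ℝ) : Prop :=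
  (∀ i j k, i < j → j < k → 0 < orient (p i) (p j) (p k)) ∨
    (∀ i j k, i < j → j < k → orient (p i) (p j) (p k) < 0)

/-- every infinitesimal flex is an infinitesimal Euclidean motion -/
def InfRigid {N : ℕ} (G : SimpleGraph (Fin N)) (p : Fin N → Fin 2 → ℝ) : Prop :=
  ∀ u : Fin N → Fin 2 → ℝ, (∀ i j, G.Adj i j → (p i - p j) ⬝ᵥ (u i - u j) = 0) →
    ∃ (A : Matrix (Fin 2) (Fin 2) ℝ) (t : Fin 2 → ℝ), Aᵀ = -A ∧ ∀ i, u i = A *ᵥ p i + t

/-- infinitesimally rigid at every placement with algebraically independent coordinates -/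
def GenRigid {N : ℕ} (G : SimpleGraph (Fin N)) : Prop :=
  ∀ p : Fin N → Fin 2 → ℝ, AlgebraicIndependent ℚ (fun x : Fin N × Fin 2 => p x.1 x.2) →
    InfRigid G p

/-- property (C): every strictly convex configuration is infinitesimally rigid -/
def PropC {N : ℕ} (G : SimpleGraph (Fin N)) : Prop :=
  ∀ p : Fin N → Fin 2 → ℝ, StrictlyConvex p → InfRigid G p

end Pool.Agent.P.MP_0f810e_lc
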