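import Pool.Agent.P.MP_0f810e_lc.Geo

/-! The braced polygon graph of a system of comparability constraints. -/

namespace Pool.Agent.P.MP_0f810e_lc

open Matrix

/-- the chord a vertex belongs to -/
def chord (R i : ℕ) : ℕ :=
  if i < 3 * R then 3 * R - 1 - i else if i < 6 * R then 6 * R - 1 - i else i - 6 * R

/-- the rigid body a vertex belongs to -/
def body (R : ℕ) (fs sn : ℕ → ℕ × ℕ) (i : ℕ) : ℕ × ℕ :=
  if 3 * R ≤ i ∧ i < 6 * R then fs (chord R i / 3) else sn (chord R i / 3)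

/-- the second end of a chord -/
def other (R e : ℕ) : ℕ := if e / 3 % 7 < 4 then 3 * R - 1 - e else 6 * R + e

/-- the bars between bodies -/
def bar (R i j : ℕ) : Prop := 3 * R ≤ i ∧ i < 6 * R ∧ j = other R (chord R i)

/-- adjacency -/
def adjN (R : ℕ) (fs sn : ℕ → ℕ × ℕ) (u v : ℕ) : Prop :=
  u ≠ v ∧ (v = (u + 1) % (18 * R) ∨ u = (v + 1) % (18 * R) ∨ (u % 2 = 0 ∧ v % 2 = 0 ∧
    (body R fs sn (u / 2) = body R fs sn (v / 2) ∨ bar R (u / 2) (v / 2) ∨ bar R (v / 2) (u / 2))))

theorem adjN.symm {R : ℕ} {fs sn : ℕ → ℕ × ℕ} {u v : ℕ} (h : adjN R fs sn u v) :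
    adjN R fs sn v u := by
  obtain ⟨h1, h2⟩ := h
  refine ⟨h1.symm, ?_⟩
  rcases h2 with h | h | ⟨h2, h3, h | h | h⟩
  · exact Or.inr (Or.inl h)
  · exact Or.inl h
  · exact Or.inr (Or.inr ⟨h3, h2, Or.inl h.symm⟩)
  · exact Or.inr (Or.inr ⟨h3, h2, Or.inr (Or.inr h)⟩)
  · exact Or.inr (Or.inr ⟨h3, h2, Or.inr (Or.inl h)⟩)

/-- the graph -/
def gr (R : ℕ) (fs sn : ℕ → ℕ × ℕ) : SimpleGraph (Fin (18 * R)) where
  Adj u v := adjN R fs sn u v
  symm := ⟨fun _ _ h => h.symm⟩
  loopless := ⟨fun _ h => h.1 rfl⟩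

variable {R : ℕ} {fs sn : ℕ → ℕ × ℕ}

theorem succ_mod {N k : ℕ} (hk : k < N) : (k + 1) % N = if k + 1 < N then k + 1 else 0 := by
  split_ifs with h
  · exact Nat.mod_eq_of_lt h
  · rw [show k + 1 = N by omega, Nat.mod_self]

theorem braced (hR : 0 < R) : Braced (gr R fs sn) := by
  refine ⟨by omega, fun i j h => ⟨fun e => ?_, Or.inl h⟩⟩
  rw [succ_mod i.2] at h
  have := i.2
  split_ifs at h <;> omega

theorem chord_fst {e : ℕ} (he : e < 3 * R) : chord R (6 * R - 1 - e) = e := by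
  unfold chord; split_ifs <;> omega

theorem chord_other {e : ℕ} (he : e < 3 * R) : chord R (other R e) = e := by
  unfold chord other; split_ifs <;> omega

theorem chord_lt {i : ℕ} (hi : i < 9 * R) : chord R i < 3 * R := by
  unfold chord; split_ifs <;> omega

theorem other_lt {e : ℕ} (he : e < 3 * R) : other R e < 9 * R := by
  unfold other; split_ifs <;> omega

theorem body_fst {e : ℕ} (he : e < 3 * R) : body R fs sn (6 * R - 1 - e) = fs (e / 3) := by
  rw [body, if_pos (by omega), chord_fst he]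

theorem body_other {e : ℕ} (he : e < 3 * R) : body R fs sn (other R e) = sn (e / 3) := by
  rw [body, if_neg (by unfold other; split_ifs <;> omega), chord_other he]

theorem core {p u : ℕ → Fin 2 → ℝ}
    (hgp : ∀ i < 18 * R, ∀ j < 18 * R, ∀ k < 18 * R, i ≠ j → i ≠ k → j ≠ k →
      orient (p i) (p j) (p k) ≠ 0)
    (h : ∀ i < 18 * R, ∀ j < 18 * R, adjN R fs sn i j → (p i - p j) ⬝ᵥ (u i - u j) = 0) :
    ∃ S : ℕ × ℕ → H, (∀ e < 3 * R, det3 (lift (p (2 * (6 * R - 1 - e))))
        (lift (p (2 * other R e))) (S (fs (e / 3)) - S (sn (e / 3))) = 0) ∧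
      ∀ d, (∀ r < R, S (fs r) = d ∧ S (sn r) = d) → ∀ k < 18 * R, u k = vel d (p k) := by
  have hb : ∀ b : ℕ × ℕ, ∃ d, ∀ k ∈ {k | k < 18 * R ∧ k % 2 = 0 ∧ body R fs sn (k / 2) = b},
      u k = vel d (p k) := by
    intro b
    refine body_rigid (fun i hi j hj hij e => ?_)
      (fun i hi j hj k hk => hgp i hi.1 j hj.1 k hk.1) fun i hi j hj hij => h i hi.1 j hj.1
        ⟨hij, Or.inr (Or.inr ⟨hi.2.1, hj.2.1, Or.inl (hi.2.2.trans hj.2.2.symm)⟩)⟩
    have h1 := hi.1
    have h2 := hi.2.1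
    have h3 := hj.2.1
    refine hgp i hi.1 j hj.1 1 (by omega) hij (by omega) (by omega) ?_
    rw [e]; simp [orient]
  choose S hS using hb
  have hS' : ∀ i < 9 * R, u (2 * i) = vel (S (body R fs sn i)) (p (2 * i)) := fun i hi =>
    hS _ _ ⟨by omega, by omega, by rw [show 2 * i / 2 = i by omega]⟩
  refine ⟨S, fun e he => ?_, fun d hd => ?_⟩
  · have h1 := other_lt he
    have h2 := h (2 * (6 * R - 1 - e)) (by omega) (2 * other R e) (by omega)
      ⟨by unfold other; split_ifs <;> omega, Or.inr (Or.inr ⟨by omega, by omega,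
        Or.inr (Or.inl ⟨by omega, by omega, by
          rw [show 2 * (6 * R - 1 - e) / 2 = 6 * R - 1 - e by omega, chord_fst he]; omega⟩)⟩)⟩
    rw [hS' _ (by omega), hS' _ h1, bar_eq, body_fst he, body_other he] at h2
    linarith
  · have hev : ∀ i < 9 * R, u (2 * i) = vel d (p (2 * i)) := by
      intro i hi
      have h1 := hd (chord R i / 3) (by have := chord_lt hi; omega)
      rw [hS' i hi, body]
      split_ifs
      · rw [h1.1]
      · rw [h1.2]
    intro k hk
    rcases Nat.even_or_odd' k with ⟨i, rfl | rfl⟩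
    · exact hev i (by omega)
    · obtain ⟨j, hj, hj'⟩ : ∃ j < 9 * R, 2 * j = (2 * i + 1 + 1) % (18 * R) ∧ j ≠ i := by
        rw [succ_mod hk]
        split_ifs
        · exact ⟨i + 1, by omega, by omega, by omega⟩
        · exact ⟨0, by omega, by omega, by omega⟩
      have h1 := h (2 * i + 1) hk (2 * i) (by omega)
        ⟨by omega, Or.inr (Or.inl (Nat.mod_eq_of_lt hk).symm)⟩
      have h2 := h (2 * i + 1) hk (2 * j) (by omega) ⟨by omega, Or.inl hj'.1⟩
      refine two_bars (hgp (2 * i + 1) hk (2 * i) (by omega) (2 * j) (by omega) (by omega)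
        (by omega) (by omega)) h1 h2 ?_ ?_
      · rw [hev i (by omega)]; exact vel_bar _ _ d
      · rw [hev j hj]; exact vel_bar _ _ d

/-- extension to all natural numbers -/
noncomputable def ext {N : ℕ} (p : Fin N → Fin 2 → ℝ) (k : ℕ) : Fin 2 → ℝ :=
  if h : k < N then p ⟨k, h⟩ else 0

theorem ext_eq {N : ℕ} (p : Fin N → Fin 2 → ℝ) {k : ℕ} (h : k < N) : ext p k = p ⟨k, h⟩ := by
  simp [ext, h]

theorem core' {p : Fin (18 * R) → Fin 2 → ℝ}
    (hgp : ∀ i j k, i ≠ j → i ≠ k → j ≠ k → orient (p i) (p j) (p k) ≠ 0)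
    (h : ¬ InfRigid (gr R fs sn) p) :
    ∃ S : ℕ × ℕ → H, (∀ e < 3 * R, det3 (lift (ext p (2 * (6 * R - 1 - e))))
        (lift (ext p (2 * other R e))) (S (fs (e / 3)) - S (sn (e / 3))) = 0) ∧
      ¬ ∃ d, ∀ r < R, S (fs r) = d ∧ S (sn r) = d := by
  simp only [InfRigid, triv_iff, not_forall] at h
  obtain ⟨u, hu, hu'⟩ := h
  obtain ⟨S, h1, h2⟩ := core (fs := fs) (sn := sn) (p := ext p) (u := ext u)
    (fun i hi j hj k hk a b c => by
      rw [ext_eq p hi, ext_eq p hj, ext_eq p hk]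
      exact hgp _ _ _ (by simpa using a) (by simpa using b) (by simpa using c))
    (fun i hi j hj a => by
      rw [ext_eq p hi, ext_eq p hj, ext_eq u hi, ext_eq u hj]
      exact hu ⟨i, hi⟩ ⟨j, hj⟩ a)
  refine ⟨S, h1, fun ⟨d, hd⟩ => hu' ⟨d, fun i => ?_⟩⟩
  have := h2 d hd i i.2
  rwa [ext_eq p i.2, ext_eq u i.2] at this

theorem generic (hc : ∀ S : ℕ × ℕ → H, (∀ r < R, S (fs r) = S (sn r)) →
    ∃ d, ∀ r < R, S (fs r) = d ∧ S (sn r) = d) : GenRigid (gr R fs sn) := by
  intro p hp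
  by_contra h
  obtain ⟨S, h1, h2⟩ := core' (fun i j k a b c => gen_orient hp (v := ![i, j, k]) (by
    intro x y
    fin_cases x <;> fin_cases y <;> simp [a, b, c, a.symm, b.symm, c.symm])) h
  refine h2 (hc S fun r hr => sub_eq_zero.1 ?_)
  have a0 := h1 (3 * r) (by omega)
  have a1 := h1 (3 * r + 1) (by omega)
  have a2 := h1 (3 * r + 2) (by omega)
  have b0 := other_lt (show 3 * r < 3 * R by omega)
  have b1 := other_lt (show 3 * r + 1 < 3 * R by omega)
  have b2 := other_lt (show 3 * r + 2 < 3 * R by omega)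
  rw [show 3 * r / 3 = r by omega, ext_eq p (by omega), ext_eq p (by omega)] at a0
  rw [show (3 * r + 1) / 3 = r by omega, ext_eq p (by omega), ext_eq p (by omega)] at a1
  rw [show (3 * r + 2) / 3 = r by omega, ext_eq p (by omega), ext_eq p (by omega)] at a2
  refine three_lines a0 a1 a2 (gen_lines hp
    (v := ![⟨2 * (6 * R - 1 - 3 * r), by omega⟩, ⟨2 * other R (3 * r), by omega⟩,
      ⟨2 * (6 * R - 1 - (3 * r + 1)), by omega⟩, ⟨2 * other R (3 * r + 1), by omega⟩,
      ⟨2 * (6 * R - 1 - (3 * r + 2)), by omega⟩, ⟨2 * other R (3 * r + 2), by omega⟩]) ?_)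
  have c0 : other R (3 * r) = if r % 7 < 4 then 3 * R - 1 - 3 * r else 6 * R + 3 * r := by
    rw [other, show 3 * r / 3 = r by omega]
  have c1 : other R (3 * r + 1)
      = if r % 7 < 4 then 3 * R - 1 - (3 * r + 1) else 6 * R + (3 * r + 1) := by
    rw [other, show (3 * r + 1) / 3 = r by omega]
  have c2 : other R (3 * r + 2)
      = if r % 7 < 4 then 3 * R - 1 - (3 * r + 2) else 6 * R + (3 * r + 2) := by
    rw [other, show (3 * r + 2) / 3 = r by omega]
  intro x y
  fin_cases x <;> fin_cases y <;> simp [Fin.ext_iff] <;> split_ifs at c0 c1 c2 <;> omega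

theorem orient_perm {N : ℕ} {p : Fin N → Fin 2 → ℝ}
    (h : ∀ i j k, i < j → j < k → orient (p i) (p j) (p k) ≠ 0) (i j k : Fin N) (a : i ≠ j)
    (b : i ≠ k) (c : j ≠ k) : orient (p i) (p j) (p k) ≠ 0 := by
  intro h0
  rcases lt_or_gt_of_ne a with a | a <;> rcases lt_or_gt_of_ne b with b | b <;>
    rcases lt_or_gt_of_ne c with c | c
  · exact h i j k a c h0
  · exact h i k j b c (by simp only [orient] at h0 ⊢; linarith)
  · exact absurd (a.trans c) (not_lt.2 b.le)
  · exact h k i j b a (by simp only [orient] at h0 ⊢; linarith)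
  · exact h j i k a b (by simp only [orient] at h0 ⊢; linarith)
  · exact absurd (c.trans a) (not_lt.2 b.le)
  · exact h j k i c b (by simp only [orient] at h0 ⊢; linarith)
  · exact h k j i c a (by simp only [orient] at h0 ⊢; linarith)

theorem sound (hR : 0 < R) (h : ¬ PropC (gr R fs sn)) :
    ∃ (S : ℕ × ℕ → H) (Q : H → Prop), (∀ d d', Q d → Q d' → Q (d + d')) ∧ ¬ Q 0 ∧
      (∀ r < R, r % 7 < 4 →
        S (fs r) = S (sn r) ∨ Q (S (fs r) - S (sn r)) ∨ Q (S (sn r) - S (fs r))) ∧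
      (∀ r < R, ¬ r % 7 < 4 → ¬ Q (S (fs r) - S (sn r)) ∧ ¬ Q (S (sn r) - S (fs r))) ∧
      ¬ ∃ d, ∀ r < R, S (fs r) = d ∧ S (sn r) = d := by
  simp only [PropC, not_forall] at h
  obtain ⟨p, hp, h⟩ := h
  obtain ⟨S, h1, h2⟩ := core' (orient_perm fun i j k a b =>
    hp.elim (fun h => (h i j k a b).ne') fun h => (h i j k a b).ne) h
  obtain ⟨P, hP, hP'⟩ : ∃ P : ℕ → H,
      (∀ i j k, i < j → j < k → k < 18 * R → 0 < det3 (P i) (P j) (P k)) ∧
      ∀ i j d, det3 (P i) (P j) d = det3 (lift (ext p i)) (lift (ext p j)) d := by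
    rcases hp with hp | hp
    · refine ⟨fun i => lift (ext p i), fun i j k a b c => ?_, fun _ _ _ => rfl⟩
      rw [← orient_eq, ext_eq p c, ext_eq p (b.trans c), ext_eq p (a.trans (b.trans c))]
      exact hp _ _ _ a b
    · refine ⟨fun i => -lift (ext p i), fun i j k a b c => ?_, fun _ _ _ => det3_neg2 _ _ _⟩
      rw [det3_neg2, det3_neg, ← orient_eq, ext_eq p c, ext_eq p (b.trans c),
        ext_eq p (a.trans (b.trans c))]
      exact neg_pos.2 (hp _ _ _ a b)
  have sw : ∀ a b d : H, det3 a b d = 0 → det3 b a d = 0 := fun a b d h => by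
    simp only [det3] at h ⊢; linarith
  refine ⟨S, Pos (18 * R) P, fun _ _ => Pos.add, not_pos_zero (by omega), fun r hr h7 => ?_,
    fun r hr h7 => ?_, h2⟩
  · have a0 := h1 (3 * r) (by omega)
    have a1 := h1 (3 * r + 1) (by omega)
    rw [other, show 3 * r / 3 = r by omega, if_pos h7, ← hP'] at a0
    rw [other, show (3 * r + 1) / 3 = r by omega, if_pos h7, ← hP'] at a1
    simpa [sub_eq_zero] using crossing hP (by omega) (by omega) (by omega) (by omega)
      (sw _ _ _ a1) (sw _ _ _ a0)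
  · have a0 := h1 (3 * r) (by omega)
    have a1 := h1 (3 * r + 1) (by omega)
    rw [other, show 3 * r / 3 = r by omega, if_neg h7, ← hP'] at a0
    rw [other, show (3 * r + 1) / 3 = r by omega, if_neg h7, ← hP'] at a1
    refine ⟨nested hP (by omega) (by omega) (by omega) (by omega) a1 a0,
      nested hP (by omega) (by omega) (by omega) (by omega) (a := 6 * R - 1 - (3 * r + 1))
        (b := 6 * R - 1 - 3 * r) (c := 6 * R + 3 * r) (e := 6 * R + (3 * r + 1)) ?_ ?_⟩
    · rw [← neg_sub, det3_neg, a1, neg_zero]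
    · rw [← neg_sub, det3_neg, a0, neg_zero]

/-! ### realisation on a parabola -/

/-- growing scales -/
noncomputable def scale (ρ : ℕ → ℝ) : ℕ → ℝ
  | 0 => 1 + 1 / ρ 0
  | e + 1 => scale ρ e + ρ e * scale ρ e / ρ (e + 1)

theorem scale_pos {ρ : ℕ → ℝ} (hρ : ∀ e, 0 < ρ e) (e : ℕ) : 0 < scale ρ e := by
  induction e with
  | zero => have := hρ 0; simp only [scale]; positivity
  | succ e ih => have := hρ e; have := hρ (e + 1); simp only [scale]; positivity

theorem scale_lt {ρ : ℕ → ℝ} (hρ : ∀ e, 0 < ρ e) (e : ℕ) : scale ρ e < scale ρ (e + 1) := by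
  have := hρ e; have := hρ (e + 1); have := scale_pos hρ e
  simp only [scale, lt_add_iff_pos_right]; positivity

theorem scale_lt' {ρ : ℕ → ℝ} (hρ : ∀ e, 0 < ρ e) (e : ℕ) :
    ρ e * scale ρ e < ρ (e + 1) * scale ρ (e + 1) := by
  have h1 := hρ (e + 1)
  have := mul_pos h1 (scale_pos hρ e)
  simp only [scale, mul_add, mul_div_cancel₀ _ h1.ne']
  linarith

/-- abscissa of the vertices of the bodies -/
noncomputable def xs (R : ℕ) (ρ : ℕ → ℝ) (i : ℕ) : ℝ :=
  if i < 3 * R then -(ρ (chord R i) * scale ρ (chord R i)) else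
    if i < 6 * R then 1 / scale ρ (chord R i) else ρ (chord R i) * scale ρ (chord R i)

theorem xs_lt {ρ : ℕ → ℝ} (hρ : ∀ e, 0 < ρ e) (i : ℕ) : xs R ρ i < xs R ρ (i + 1) := by
  unfold xs chord
  by_cases h1 : i + 1 < 3 * R
  · simp only [h1, show i < 3 * R by omega, if_true]
    rw [show 3 * R - 1 - i = 3 * R - 1 - (i + 1) + 1 by omega]
    exact neg_lt_neg (scale_lt' hρ _)
  by_cases h2 : i < 3 * R
  · simp only [h1, h2, show i + 1 < 6 * R by omega, if_true, if_false]
    have := mul_pos (hρ (3 * R - 1 - i)) (scale_pos hρ (3 * R - 1 - i))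
    have := one_div_pos.2 (scale_pos hρ (6 * R - 1 - (i + 1)))
    linarith
  by_cases h3 : i + 1 < 6 * R
  · simp only [h1, h2, h3, show i < 6 * R by omega, if_true, if_false]
    rw [show 6 * R - 1 - i = 6 * R - 1 - (i + 1) + 1 by omega]
    exact one_div_lt_one_div_of_lt (scale_pos hρ _) (scale_lt hρ _)
  by_cases h4 : i < 6 * R
  · simp only [h1, h2, h3, h4, if_true, if_false]
    rw [show 6 * R - 1 - i = 0 by omega, show i + 1 - 6 * R = 0 by omega]
    have h5 := hρ 0
    have h6 : 1 / scale ρ 0 < 1 := by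
      rw [div_lt_one (scale_pos hρ 0)]
      simp only [scale, lt_add_iff_pos_right]; positivity
    have h7 : ρ 0 * scale ρ 0 = ρ 0 + 1 := by simp only [scale]; field_simp
    linarith
  · simp only [h1, h2, h3, h4, if_false]
    rw [show i + 1 - 6 * R = i - 6 * R + 1 by omega]
    exact scale_lt' hρ _

theorem complete (hR : 0 < R) (a b : ℕ × ℕ → ℝ)
    (h1 : ∀ r < R, r % 7 < 4 → 0 < (a (fs r) - a (sn r)) * (b (fs r) - b (sn r)))
    (h2 : ∀ r < R, ¬ r % 7 < 4 → (a (fs r) - a (sn r)) * (b (fs r) - b (sn r)) < 0) :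
    ¬ PropC (gr R fs sn) := by
  have h0 : ∀ r < R, (a (fs r) - a (sn r)) * (b (fs r) - b (sn r)) ≠ 0 := fun r hr => by
    by_cases h : r % 7 < 4
    · exact (h1 r hr h).ne'
    · exact (h2 r hr h).ne
  let ρ : ℕ → ℝ := fun e => if e < 3 * R then
    |(b (fs (e / 3)) - b (sn (e / 3))) / (a (fs (e / 3)) - a (sn (e / 3)))| else 1
  have hρ : ∀ e, 0 < ρ e := fun e => by
    simp only [ρ]
    split_ifs with h
    · have := mul_ne_zero_iff.1 (h0 (e / 3) (by omega))
      exact abs_pos.2 (div_ne_zero this.2 this.1)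
    · exact one_pos
  let X : ℕ → ℝ := fun k => (xs R ρ (k / 2) + xs R ρ ((k + 1) / 2)) / 2
  have hX : StrictMono X := strictMono_nat_of_lt_succ fun k => by
    have := xs_lt (R := R) hρ (k / 2)
    simp only [X]
    rw [show (k + 1 + 1) / 2 = k / 2 + 1 by omega]
    linarith
  have hX2 : ∀ i, X (2 * i) = xs R ρ i := fun i => by
    simp only [X]
    rw [show 2 * i / 2 = i by omega, show (2 * i + 1) / 2 = i by omega]
    ring
  let p : ℕ → Fin 2 → ℝ := fun k => ![X k, X k ^ 2]
  have hor : ∀ i j k, orient (p i) (p j) (p k) = (X j - X i) * (X k - X i) * (X k - X j) :=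
    fun i j k => by simp [orient, p]; ring
  let S : ℕ × ℕ → H := fun c => (a c, 0, b c)
  let w : ℕ → Fin 2 → ℝ := fun k => vel (S (body R fs sn (k / 2))) (p k)
  have hfill : ∀ k, ∃ z : Fin 2 → ℝ, k < 18 * R → k % 2 = 1 →
      (p k - p (k - 1)) ⬝ᵥ (z - w (k - 1)) = 0 ∧
        (p k - p ((k + 1) % (18 * R))) ⬝ᵥ (z - w ((k + 1) % (18 * R))) = 0 := by
    intro k
    by_cases hk : k < 18 * R ∧ k % 2 = 1
    · obtain ⟨z, hz⟩ := exists_two_bars (p := p k) (a := p (k - 1)) (b := p ((k + 1) % (18 * R)))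
        (by
          rw [hor, succ_mod hk.1]
          refine mul_ne_zero (mul_ne_zero ?_ ?_) ?_ <;> refine sub_ne_zero.2 (hX.injective.ne ?_)
          · omega
          · split_ifs <;> omega
          · split_ifs <;> omega) (w (k - 1)) (w ((k + 1) % (18 * R)))
      exact ⟨z, fun _ _ => hz⟩
    · exact ⟨0, fun h h' => absurd ⟨h, h'⟩ hk⟩
  choose z hz using hfill
  let u : ℕ → Fin 2 → ℝ := fun k => if k % 2 = 0 then w k else z k
  have sw : ∀ i j, (p i - p j) ⬝ᵥ (u i - u j) = 0 → (p j - p i) ⬝ᵥ (u j - u i) = 0 :=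
    fun i j h => by rw [← neg_sub (p i), ← neg_sub (u i), neg_dotProduct_neg, h]
  have hcyc : ∀ i < 18 * R, ∀ j, j = (i + 1) % (18 * R) → (p i - p j) ⬝ᵥ (u i - u j) = 0 := by
    intro i hi j hj
    by_cases h : i % 2 = 0
    · have h3 : j = i + 1 := by rw [hj, Nat.mod_eq_of_lt (by omega)]
      have h4 := (hz j (by omega) (by omega)).1
      refine sw _ _ ?_
      simp only [u, h, show ¬ j % 2 = 0 by omega, if_true, if_false]
      rwa [show j - 1 = i by omega] at h4
    · have h3 : j % 2 = 0 := by rw [hj, succ_mod hi]; split_ifs <;> omega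
      have h4 := (hz i hi (by omega)).2
      simp only [u, h, h3, if_true, if_false]
      rwa [← hj] at h4
  have hbar : ∀ i j, i % 2 = 0 → j % 2 = 0 → bar R (i / 2) (j / 2) →
      (p i - p j) ⬝ᵥ (u i - u j) = 0 := by
    rintro i j hi hj ⟨h3, h4, h5⟩
    obtain ⟨i, rfl⟩ : ∃ k, i = 2 * k := ⟨i / 2, by omega⟩
    obtain ⟨j, rfl⟩ : ∃ k, j = 2 * k := ⟨j / 2, by omega⟩
    rw [show 2 * i / 2 = i by omega] at h3 h4 h5
    rw [show 2 * j / 2 = j by omega] at h5
    obtain ⟨e, he, rfl⟩ : ∃ e < 3 * R, i = 6 * R - 1 - e := ⟨6 * R - 1 - i, by omega, by omega⟩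
    rw [chord_fst he] at h5
    subst h5
    simp only [u, hi, hj, if_true, w]
    rw [bar_eq, show 2 * (6 * R - 1 - e) / 2 = 6 * R - 1 - e by omega,
      show 2 * other R e / 2 = other R e by omega, body_fst he, body_other he]
    have h6 : X (2 * (6 * R - 1 - e)) = 1 / scale ρ e := by
      rw [hX2, xs, if_neg (by omega), if_pos (by omega), chord_fst he]
    have h7 := scale_pos hρ e
    have h8 := (mul_ne_zero_iff.1 (h0 (e / 3) (by omega))).1
    have h9 : X (2 * other R e) = -((b (fs (e / 3)) - b (sn (e / 3))) /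
        (a (fs (e / 3)) - a (sn (e / 3))) * scale ρ e) := by
      rw [hX2, xs, chord_other he]
      by_cases h : e / 3 % 7 < 4
      · rw [if_pos (by rw [other, if_pos h]; omega)]
        simp only [ρ, if_pos he]
        rw [abs_of_pos (div_pos_iff.2
          ((mul_pos_iff.1 (h1 _ (by omega) h)).imp And.symm And.symm))]
      · rw [if_neg (by rw [other, if_neg h]; omega), if_neg (by rw [other, if_neg h]; omega)]
        simp only [ρ, if_pos he]
        rw [abs_of_neg (div_neg_iff.2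
          ((mul_neg_iff.1 (h2 _ (by omega) h)).symm.imp And.symm And.symm)), neg_mul]
    simp only [det3, lift, p, S, cons_val_zero, cons_val_one, Prod.fst_sub, Prod.snd_sub, h6, h9]
    field_simp
    ring
  intro hC
  obtain ⟨d, hd⟩ := (triv_iff _ _).1 (hC (fun k => p k)
    (Or.inl fun i j k hij hjk => by
      rw [hor]
      have := hX (show (i : ℕ) < j from hij)
      have := hX (show (j : ℕ) < k from hjk)
      exact mul_pos (mul_pos (by linarith) (by linarith)) (by linarith))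
    (fun k => u k) fun i j ⟨_, h⟩ => by
      rcases h with h | h | ⟨h3, h4, h | h | h⟩
      · exact hcyc _ i.2 _ h
      · exact sw _ _ (hcyc _ j.2 _ h)
      · simp only [u, h3, h4, if_true, w, h]
        exact vel_bar _ _ _
      · exact hbar _ _ h3 h4 h
      · exact sw _ _ (hbar _ _ h4 h3 h))
  have key : ∀ i j, i < 9 * R → j < 9 * R → i ≠ j → body R fs sn i = body R fs sn j →
      S (body R fs sn i) = d := by
    intro i j hi hj hij h
    have e1 := hd ⟨2 * i, by omega⟩
    have e2 := hd ⟨2 * j, by omega⟩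
    simp only [u, Nat.mul_mod_right, if_true, w, show 2 * i / 2 = i by omega] at e1
    simp only [u, Nat.mul_mod_right, if_true, w, show 2 * j / 2 = j by omega, ← h] at e2
    exact vel_inj (hX.injective.ne (by omega)) e1 e2
  have e1 := key (6 * R - 1 - 0) (6 * R - 1 - 1) (by omega) (by omega) (by omega)
    (by rw [body_fst (by omega), body_fst (by omega)])
  have e2 := key (other R 0) (other R 1) (other_lt (by omega)) (other_lt (by omega))
    (by simp [other]; omega) (by rw [body_other (by omega), body_other (by omega)])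
  rw [body_fst (by omega)] at e1
  rw [body_other (by omega)] at e2
  have e3 : a (fs 0) = a (sn 0) := congrArg Prod.fst (e1.trans e2.symm)
  exact h0 0 hR (by rw [e3, sub_self, zero_mul])

end Pool.Agent.P.MP_0f810e_lc
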