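import Pool.Agent.P.MP_0f810e_lc.Defs

/-! Plane geometry of infinitesimal motions. -/

namespace Pool.Agent.P.MP_0f810e_lc

open Matrix

/-- homogeneous coordinates -/
abbrev H := ℝ × ℝ × ℝ

/-- determinant of three vectors -/
def det3 (a b c : H) : ℝ :=
  a.1 * (b.2.1 * c.2.2 - b.2.2 * c.2.1) - a.2.1 * (b.1 * c.2.2 - b.2.2 * c.1) +
    a.2.2 * (b.1 * c.2.1 - b.2.1 * c.1)

/-- cross product -/
def crs (a b : H) : H :=
  (a.2.1 * b.2.2 - a.2.2 * b.2.1, a.2.2 * b.1 - a.1 * b.2.2, a.1 * b.2.1 - a.2.1 * b.1)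

/-- a point in homogeneous coordinates -/
def lift (q : Fin 2 → ℝ) : H := (1, q 0, q 1)

/-- the velocity field of the motion with centre `d` -/
def vel (d : H) (q : Fin 2 → ℝ) : Fin 2 → ℝ := ![d.2.2 - d.1 * q 1, -d.2.1 + d.1 * q 0]

theorem orient_eq (a b c : Fin 2 → ℝ) : orient a b c = det3 (lift a) (lift b) (lift c) := by
  simp only [orient, det3, lift]; ring

theorem dot_two (a b : Fin 2 → ℝ) : a ⬝ᵥ b = a 0 * b 0 + a 1 * b 1 := by
  simp [dotProduct, Fin.sum_univ_two]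

theorem bar_eq (p q : Fin 2 → ℝ) (d d' : H) :
    (p - q) ⬝ᵥ (vel d p - vel d' q) = -det3 (lift p) (lift q) (d - d') := by
  simp only [dot_two, vel, det3, lift, Pi.sub_apply, cons_val_zero, cons_val_one, Prod.fst_sub,
    Prod.snd_sub]
  ring

theorem det3_self (a b : H) : det3 a b 0 = 0 := by simp [det3]

theorem det3_add (a b c d : H) : det3 a b (c + d) = det3 a b c + det3 a b d := by
  simp [det3]; ring

theorem det3_neg (a b c : H) : det3 a b (-c) = -det3 a b c := by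
  simp [det3]; ring

theorem det3_neg2 (a b c : H) : det3 (-a) (-b) c = det3 a b c := by
  simp [det3]; ring

theorem det3_cyc (a b c : H) : det3 a b c = det3 b c a := by
  simp only [det3]; ring

theorem det3_swap (a b c : H) : det3 a b c = -det3 a c b := by
  simp only [det3]; ring

theorem det3_left (a b : H) : det3 a b a = 0 := by
  simp only [det3]; ring

theorem det3_comb (x y a c : H) (α γ : ℝ) :
    det3 x y (α • a + γ • c) = α * det3 x y a + γ * det3 x y c := by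
  simp [det3]; ring

theorem decomp {a b c d : H} (h : det3 a c d = 0) (h' : det3 a b c ≠ 0) :
    ∃ α γ : ℝ, d = α • a + γ • c := by
  refine ⟨det3 d b c / det3 a b c, det3 a b d / det3 a b c, ?_⟩
  refine Prod.ext ?_ (Prod.ext ?_ ?_) <;>
    simp only [Prod.fst_add, Prod.snd_add, Prod.smul_fst, Prod.smul_snd, smul_eq_mul] <;>
    field_simp <;> simp only [det3] at h ⊢
  · linear_combination (-b.1) * h
  · linear_combination (-b.2.1) * h
  · linear_combination (-b.2.2) * h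

theorem three_lines {a b c d e f x : H} (h1 : det3 a b x = 0) (h2 : det3 c d x = 0)
    (h3 : det3 e f x = 0) (h : det3 (crs a b) (crs c d) (crs e f) ≠ 0) : x = 0 := by
  have e1 : (crs a b).1 * x.1 + (crs a b).2.1 * x.2.1 + (crs a b).2.2 * x.2.2 = 0 := by
    rw [← h1]; simp only [crs, det3]; ring
  have e2 : (crs c d).1 * x.1 + (crs c d).2.1 * x.2.1 + (crs c d).2.2 * x.2.2 = 0 := by
    rw [← h2]; simp only [crs, det3]; ring
  have e3 : (crs e f).1 * x.1 + (crs e f).2.1 * x.2.1 + (crs e f).2.2 * x.2.2 = 0 := by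
    rw [← h3]; simp only [crs, det3]; ring
  generalize crs a b = l at *
  generalize crs c d = m at *
  generalize crs e f = n at *
  refine Prod.ext ?_ (Prod.ext ?_ ?_) <;> refine mul_left_cancel₀ h ?_ <;>
    simp only [det3, Prod.fst_zero, Prod.snd_zero, mul_zero]
  · linear_combination (norm := (simp only [crs]; ring1))
      (crs m n).1 * e1 + (crs n l).1 * e2 + (crs l m).1 * e3
  · linear_combination (norm := (simp only [crs]; ring1))
      (crs m n).2.1 * e1 + (crs n l).2.1 * e2 + (crs l m).2.1 * e3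
  · linear_combination (norm := (simp only [crs]; ring1))
      (crs m n).2.2 * e1 + (crs n l).2.2 * e2 + (crs l m).2.2 * e3

theorem two_bars {p a b w w' : Fin 2 → ℝ} (h : orient p a b ≠ 0) {ua ub : Fin 2 → ℝ}
    (h1 : (p - a) ⬝ᵥ (w - ua) = 0) (h2 : (p - b) ⬝ᵥ (w - ub) = 0)
    (h1' : (p - a) ⬝ᵥ (w' - ua) = 0) (h2' : (p - b) ⬝ᵥ (w' - ub) = 0) : w = w' := by
  simp only [dot_two, Pi.sub_apply] at h1 h2 h1' h2'
  ext i
  fin_cases i <;> refine mul_left_cancel₀ h ?_ <;> simp only [orient]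
  · change _ * w 0 = _ * w' 0
    linear_combination (p 1 - b 1) * (h1 - h1') - (p 1 - a 1) * (h2 - h2')
  · change _ * w 1 = _ * w' 1
    linear_combination (p 0 - a 0) * (h2 - h2') - (p 0 - b 0) * (h1 - h1')

theorem exists_two_bars {p a b : Fin 2 → ℝ} (h : orient p a b ≠ 0) (ua ub : Fin 2 → ℝ) :
    ∃ w : Fin 2 → ℝ, (p - a) ⬝ᵥ (w - ua) = 0 ∧ (p - b) ⬝ᵥ (w - ub) = 0 := by
  refine ⟨![(((p - a) ⬝ᵥ ua) * (p 1 - b 1) - ((p - b) ⬝ᵥ ub) * (p 1 - a 1)) / orient p a b,
    (((p - b) ⬝ᵥ ub) * (p 0 - a 0) - ((p - a) ⬝ᵥ ua) * (p 0 - b 0)) / orient p a b], ?_, ?_⟩ <;>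
  simp only [dot_two, Pi.sub_apply, cons_val_zero, cons_val_one] <;> field_simp <;>
  simp only [orient] <;> ring

theorem vel_bar (p q : Fin 2 → ℝ) (d : H) : (p - q) ⬝ᵥ (vel d p - vel d q) = 0 := by
  rw [bar_eq, sub_self, det3_self, neg_zero]

theorem exists_vel_one (p u : Fin 2 → ℝ) : ∃ d, u = vel d p :=
  ⟨(0, -u 1, u 0), by ext i; fin_cases i <;> simp [vel]⟩

theorem exists_vel_two {p q u v : Fin 2 → ℝ} (hpq : p ≠ q) (h : (p - q) ⬝ᵥ (u - v) = 0) :
    ∃ d, u = vel d p ∧ v = vel d q := by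
  have h0 : (p 0 - q 0) ^ 2 + (p 1 - q 1) ^ 2 ≠ 0 := by
    intro h0
    apply hpq
    ext i
    fin_cases i
    · change p 0 = q 0
      nlinarith [sq_nonneg (p 0 - q 0), sq_nonneg (p 1 - q 1)]
    · change p 1 = q 1
      nlinarith [sq_nonneg (p 0 - q 0), sq_nonneg (p 1 - q 1)]
  simp only [dot_two, Pi.sub_apply] at h
  obtain ⟨ω, hω⟩ : ∃ ω : ℝ, ω * ((p 0 - q 0) ^ 2 + (p 1 - q 1) ^ 2)
      = (p 0 - q 0) * (u 1 - v 1) - (p 1 - q 1) * (u 0 - v 0) := ⟨_, div_mul_cancel₀ _ h0⟩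
  refine ⟨(ω, ω * p 0 - u 1, u 0 + ω * p 1), ?_, ?_⟩
  · ext i; fin_cases i <;> simp [vel]
  · ext i
    fin_cases i <;> refine mul_left_cancel₀ h0 ?_
    · simp only [vel, Fin.zero_eta, cons_val_zero]
      linear_combination (-(p 0 - q 0)) * h - (p 1 - q 1) * hω
    · simp only [vel, Fin.mk_one, cons_val_one, cons_val_zero]
      linear_combination (-(p 1 - q 1)) * h + (p 0 - q 0) * hω

theorem vel_inj {p q : Fin 2 → ℝ} (hpq : p 0 ≠ q 0) {d d' : H} (h1 : vel d p = vel d' p)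
    (h2 : vel d q = vel d' q) : d = d' := by
  have a0 := congrFun h1 0
  have a1 := congrFun h1 1
  have b1 := congrFun h2 1
  simp only [vel, cons_val_zero, cons_val_one] at a0 a1 b1
  have e : d.1 = d'.1 := mul_left_cancel₀ (sub_ne_zero.2 hpq) (by linear_combination a1 - b1)
  rw [e] at a0 a1
  exact Prod.ext e (Prod.ext (by linarith) (by linarith))

theorem triv_iff {N : ℕ} (p u : Fin N → Fin 2 → ℝ) :
    (∃ (A : Matrix (Fin 2) (Fin 2) ℝ) (t : Fin 2 → ℝ), Aᵀ = -A ∧ ∀ i, u i = A *ᵥ p i + t) ↔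
      ∃ d, ∀ i, u i = vel d (p i) := by
  constructor
  · rintro ⟨A, t, hA, h⟩
    have h00 : A 0 0 = 0 := by have := congrFun (congrFun hA 0) 0; simp at this; linarith
    have h11 : A 1 1 = 0 := by have := congrFun (congrFun hA 1) 1; simp at this; linarith
    have h01 : A 0 1 = -A 1 0 := by simpa using congrFun (congrFun hA 1) 0
    refine ⟨(A 1 0, -t 1, t 0), fun i => ?_⟩
    rw [h i]
    ext j
    fin_cases j <;> simp [vel, h00, h11, h01] <;> ring
  · rintro ⟨d, h⟩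
    refine ⟨!![0, -d.1; d.1, 0], ![d.2.2, -d.2.1], ?_, fun i => ?_⟩
    · ext i j; fin_cases i <;> fin_cases j <;> simp
    · rw [h i]
      ext j
      fin_cases j <;> simp [vel, vecHead, vecTail] <;> ring

/-- a clique in general position moves rigidly -/
theorem body_rigid {T : Set ℕ} {p u : ℕ → Fin 2 → ℝ}
    (hinj : ∀ i ∈ T, ∀ j ∈ T, i ≠ j → p i ≠ p j)
    (hgp : ∀ i ∈ T, ∀ j ∈ T, ∀ k ∈ T, i ≠ j → i ≠ k → j ≠ k → orient (p i) (p j) (p k) ≠ 0)
    (h : ∀ i ∈ T, ∀ j ∈ T, i ≠ j → (p i - p j) ⬝ᵥ (u i - u j) = 0) :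
    ∃ d, ∀ i ∈ T, u i = vel d (p i) := by
  by_cases h2 : T.Subsingleton
  · rcases h2.eq_empty_or_singleton with rfl | ⟨i, rfl⟩
    · exact ⟨0, by simp⟩
    · obtain ⟨d, hd⟩ := exists_vel_one (p i) (u i)
      exact ⟨d, by simpa using hd⟩
  obtain ⟨i, hi, j, hj, hij⟩ := Set.not_subsingleton_iff.1 h2
  obtain ⟨d, h1, h2⟩ := exists_vel_two (hinj i hi j hj hij) (h i hi j hj hij)
  refine ⟨d, fun k hk => ?_⟩
  by_cases hki : k = i
  · rw [hki, h1]
  by_cases hkj : k = j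
  · rw [hkj, h2]
  exact two_bars (hgp k hk i hi j hj hki hkj hij) (h k hk i hi hki) (h k hk j hj hkj)
    (h1 ▸ vel_bar _ _ d) (h2 ▸ vel_bar _ _ d)

section Cone

variable {N : ℕ} {P : ℕ → H}

/-- strictly inside all the edges that start at an even vertex -/
def Pos (N : ℕ) (P : ℕ → H) (d : H) : Prop :=
  ∀ i, 2 * i + 1 < N → 0 < det3 (P (2 * i)) (P (2 * i + 1)) d

theorem Pos.add {d d' : H} (h : Pos N P d) (h' : Pos N P d') : Pos N P (d + d') := fun i hi => by
  rw [det3_add]; exact add_pos (h i hi) (h' i hi)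

theorem not_pos_zero (hN : 2 ≤ N) : ¬ Pos N P 0 := fun h => by
  simpa [det3_self] using h 0 (by omega)

variable (hP : ∀ i j k, i < j → j < k → k < N → 0 < det3 (P i) (P j) (P k))
include hP

theorem edge_pos {i a : ℕ} (hi : 2 * i + 1 < N) (ha : 2 * a < N) (h : a ≠ i) :
    0 < det3 (P (2 * i)) (P (2 * i + 1)) (P (2 * a)) := by
  rcases lt_or_gt_of_ne h with h | h
  · rw [det3_cyc, det3_cyc]; exact hP _ _ _ (by omega) (by omega) hi
  · exact hP _ _ _ (by omega) (by omega) ha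

theorem edge_nonneg {i a : ℕ} (hi : 2 * i + 1 < N) (ha : 2 * a < N) :
    0 ≤ det3 (P (2 * i)) (P (2 * i + 1)) (P (2 * a)) := by
  by_cases h : a = i
  · rw [h, det3_left]
  · exact (edge_pos hP hi ha h).le

theorem pos_comb {a c : ℕ} (hac : a ≠ c) (ha : 2 * a < N) (hc : 2 * c < N) {α γ : ℝ} (hα : 0 < α)
    (hγ : 0 < γ) : Pos N P (α • P (2 * a) + γ • P (2 * c)) := fun i hi => by
  rw [det3_comb]
  by_cases h : a = i
  · exact add_pos_of_nonneg_of_pos (mul_nonneg hα.le (edge_nonneg hP hi ha))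
      (mul_pos hγ (edge_pos hP hi hc fun e => hac (h.trans e.symm)))
  · exact add_pos_of_pos_of_nonneg (mul_pos hα (edge_pos hP hi ha h))
      (mul_nonneg hγ.le (edge_nonneg hP hi hc))

/-- crossing chords meet inside -/
theorem crossing {a b c e : ℕ} (hab : a < b) (hbc : b < c) (hce : c < e) (he : 2 * e < N) {d : H}
    (h1 : det3 (P (2 * a)) (P (2 * c)) d = 0) (h2 : det3 (P (2 * b)) (P (2 * e)) d = 0) :
    d = 0 ∨ Pos N P d ∨ Pos N P (-d) := by
  obtain ⟨α, γ, rfl⟩ := decomp h1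
    (hP (2 * a) (2 * b) (2 * c) (by omega) (by omega) (by omega)).ne'
  have h3 := hP (2 * a) (2 * b) (2 * e) (by omega) (by omega) he
  have h4 := hP (2 * b) (2 * c) (2 * e) (by omega) (by omega) he
  rw [det3_comb, ← det3_cyc (P (2 * a)), det3_swap (P (2 * b)) (P (2 * e))] at h2
  rcases lt_trichotomy α 0 with h | h | h
  · refine Or.inr (Or.inr ?_)
    rw [neg_add, ← neg_smul, ← neg_smul]
    exact pos_comb hP (by omega) (by omega) (by omega) (by linarith) (by nlinarith)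
  · have : γ = 0 := by
      rw [h] at h2
      exact mul_right_cancel₀ h4.ne' (by linarith)
    exact Or.inl (by simp [h, this])
  · exact Or.inr (Or.inl (pos_comb hP (by omega) (by omega) (by omega) h (by nlinarith)))

/-- nested chords do not meet inside -/
theorem nested {a b c e : ℕ} (hab : a < b) (hbc : b < c) (hce : c < e) (he : 2 * e + 1 < N)
    {d : H} (h1 : det3 (P (2 * a)) (P (2 * e)) d = 0) (h2 : det3 (P (2 * b)) (P (2 * c)) d = 0) :
    ¬ Pos N P d := by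
  intro h
  obtain ⟨α, γ, rfl⟩ := decomp h1
    (hP (2 * a) (2 * b) (2 * e) (by omega) (by omega) (by omega)).ne'
  have h3 := h a (by omega)
  have h4 := h e he
  rw [det3_comb, det3_left, mul_zero, zero_add] at h3
  rw [det3_comb, det3_left, mul_zero, add_zero] at h4
  have h5 := (mul_pos_iff_of_pos_right (edge_pos hP (i := a) (a := e) (by omega) (by omega)
    (by omega))).1 h3
  have h6 := (mul_pos_iff_of_pos_right (edge_pos hP (i := e) (a := a) he (by omega)
    (by omega))).1 h4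
  rw [det3_comb, ← det3_cyc (P (2 * a))] at h2
  have h7 := mul_pos h6 (hP (2 * a) (2 * b) (2 * c) (by omega) (by omega) (by omega))
  have h8 := mul_pos h5 (hP (2 * b) (2 * c) (2 * e) (by omega) (by omega) (by omega))
  linarith

end Cone

/-! ### generic points -/

theorem gen_ne {N m : ℕ} {p : Fin N → Fin 2 → ℝ}
    (hp : AlgebraicIndependent ℚ fun x : Fin N × Fin 2 => p x.1 x.2) {v : Fin m → Fin N}
    (hv : Function.Injective v) (Φ : MvPolynomial (Fin m × Fin 2) ℚ) (q : Fin m × Fin 2 → ℚ)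
    (hq : MvPolynomial.eval q Φ ≠ 0) :
    MvPolynomial.aeval (fun x : Fin m × Fin 2 => p (v x.1) x.2) Φ ≠ 0 := by
  have h := hp.comp (Prod.map v id) (hv.prodMap Function.injective_id)
  intro h0
  have : Φ = 0 := h (by rw [map_zero]; exact h0)
  exact hq (by rw [this, map_zero])

open MvPolynomial in
theorem gen_orient {N : ℕ} {p : Fin N → Fin 2 → ℝ}
    (hp : AlgebraicIndependent ℚ fun x : Fin N × Fin 2 => p x.1 x.2) {v : Fin 3 → Fin N}
    (hv : Function.Injective v) : orient (p (v 0)) (p (v 1)) (p (v 2)) ≠ 0 := by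
  have := gen_ne hp hv ((X (1, 0) - X (0, 0)) * (X (2, 1) - X (0, 1)) -
    (X (1, 1) - X (0, 1)) * (X (2, 0) - X (0, 0))) (fun x => !![0, 0; 1, 0; 0, 1] x.1 x.2)
    (by simp)
  simpa [orient] using this

open MvPolynomial in
theorem gen_lines {N : ℕ} {p : Fin N → Fin 2 → ℝ}
    (hp : AlgebraicIndependent ℚ fun x : Fin N × Fin 2 => p x.1 x.2) {v : Fin 6 → Fin N}
    (hv : Function.Injective v) :
    det3 (crs (lift (p (v 0))) (lift (p (v 1)))) (crs (lift (p (v 2))) (lift (p (v 3))))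
      (crs (lift (p (v 4))) (lift (p (v 5)))) ≠ 0 := by
  have := gen_ne hp hv
    ((X (0, 0) * X (1, 1) - X (0, 1) * X (1, 0)) * ((X (2, 1) - X (3, 1)) * (X (5, 0) - X (4, 0)) -
        (X (3, 0) - X (2, 0)) * (X (4, 1) - X (5, 1))) -
      (X (0, 1) - X (1, 1)) * ((X (2, 0) * X (3, 1) - X (2, 1) * X (3, 0)) * (X (5, 0) - X (4, 0)) -
        (X (3, 0) - X (2, 0)) * (X (4, 0) * X (5, 1) - X (4, 1) * X (5, 0))) +
      (X (1, 0) - X (0, 0)) * ((X (2, 0) * X (3, 1) - X (2, 1) * X (3, 0)) * (X (4, 1) - X (5, 1)) -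
        (X (2, 1) - X (3, 1)) * (X (4, 0) * X (5, 1) - X (4, 1) * X (5, 0))))
    (fun x => !![0, 0; 1, 0; 0, 0; 0, 1; 1, 0; 0, 1] x.1 x.2) (by simp)
  simpa [det3, crs, lift] using this

end Pool.Agent.P.MP_0f810e_lc
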