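import Pool.Agent.P.MP_0f810e_lc.Gadget

/-! Not-all-equal clauses as comparability constraints. -/

namespace Pool.Agent.P.MP_0f810e_lc

/-- the negated literal -/
def ng (l : ℕ × ℕ) : ℕ × ℕ := (1 - l.1, l.2)

/-- the next occurrence in the same clause -/
def nxt (l o : ℕ) : ℕ := o / l * l + (o % l + 1) % l

/-- first body of a constraint -/
def fsN (lit : ℕ → ℕ × ℕ) (r : ℕ) : ℕ × ℕ :=
  if r % 7 = 0 ∨ r % 7 = 1 ∨ r % 7 = 5 then lit (r / 7) else
    if r % 7 = 2 ∨ r % 7 = 3 then (2, r / 7) else if r % 7 = 4 then ng (lit (r / 7)) else (3, r / 7)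

/-- second body of a constraint -/
def snN (l : ℕ) (lit : ℕ → ℕ × ℕ) (r : ℕ) : ℕ × ℕ :=
  if r % 7 = 0 then ng (lit (r / 7)) else
    if r % 7 = 1 ∨ r % 7 = 2 ∨ r % 7 = 4 then (3, r / 7) else
      if r % 7 = 5 then (2, r / 7) else (2, nxt l (r / 7))

variable {C l : ℕ} {lit : ℕ → ℕ × ℕ}

theorem forall_pairs {n : ℕ} {p : ℕ → ℕ × ℕ → ℕ × ℕ → Prop} :
    (∀ r < 7 * n, p (r % 7) (fsN lit r) (snN l lit r)) ↔ ∀ o < n,
      p 0 (lit o) (ng (lit o)) ∧ p 1 (lit o) (3, o) ∧ p 2 (2, o) (3, o) ∧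
        p 3 (2, o) (2, nxt l o) ∧ p 4 (ng (lit o)) (3, o) ∧ p 5 (lit o) (2, o) ∧
        p 6 (3, o) (2, nxt l o) := by
  have e : ∀ o t, t < 7 → (7 * o + t) % 7 = t ∧ (7 * o + t) / 7 = o := fun o t h => by omega
  constructor
  · intro h o ho
    have h' : ∀ t < 7, p ((7 * o + t) % 7) (fsN lit (7 * o + t)) (snN l lit (7 * o + t)) :=
      fun t ht => h _ (by omega)
    refine ⟨?_, ?_, ?_, ?_, ?_, ?_, ?_⟩
    · simpa [fsN, snN, e o 0] using h' 0 (by omega)
    · simpa [fsN, snN, e o 1] using h' 1 (by omega)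
    · simpa [fsN, snN, e o 2] using h' 2 (by omega)
    · simpa [fsN, snN, e o 3] using h' 3 (by omega)
    · simpa [fsN, snN, e o 4] using h' 4 (by omega)
    · simpa [fsN, snN, e o 5] using h' 5 (by omega)
    · simpa [fsN, snN, e o 6] using h' 6 (by omega)
  · intro h r hr
    have h' := h (r / 7) (by omega)
    have h7 : r % 7 < 7 := Nat.mod_lt _ (by norm_num)
    unfold fsN snN
    generalize r % 7 = t at h7 ⊢
    interval_cases t <;> simp [h']

theorem nxt_eq (c : ℕ) {j : ℕ} (hj : j < l) : nxt l (c * l + j) = c * l + (j + 1) % l := by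
  have h1 : (c * l + j) / l = c := by
    rw [mul_comm, Nat.mul_add_div (by omega), Nat.div_eq_of_lt hj, add_zero]
  rw [nxt, h1, Nat.mul_add_mod_of_lt hj]

theorem occ_lt {c j : ℕ} (hc : c < C) (hj : j < l) : c * l + j < C * l := by
  have := Nat.mul_le_mul_right l (show c + 1 ≤ C from hc)
  rw [add_mul] at this
  omega

theorem occ_split {o : ℕ} (ho : o < C * l) : ∃ c < C, ∃ j < l, o = c * l + j := by
  have hl : 0 < l := Nat.pos_of_ne_zero fun h => by simp [h] at ho
  exact ⟨o / l, (Nat.div_lt_iff_lt_mul hl).2 ho, o % l, Nat.mod_lt _ hl,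
    (Nat.div_add_mod' o l).symm⟩

theorem conn {L : ℕ × ℕ} (hL : ∀ c < C, lit (c * l + (l - 1)) = L) (S : ℕ × ℕ → H)
    (h : ∀ r < 7 * (C * l), S (fsN lit r) = S (snN l lit r)) :
    ∃ d, ∀ r < 7 * (C * l), S (fsN lit r) = d ∧ S (snN l lit r) = d := by
  have h1 := (forall_pairs (p := fun _ a b => S a = S b)).1 h
  have h2 : ∀ c < C, ∀ i j, j + i + 1 = l → S (2, c * l + j) = S L := by
    intro c hc i
    induction i with
    | zero =>
      intro j hj
      rw [← (h1 _ (occ_lt hc (by omega))).2.2.2.2.2.1, ← hL c hc, show l - 1 = j by omega]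
    | succ i ih =>
      intro j hj
      rw [(h1 _ (occ_lt hc (by omega))).2.2.2.1, nxt_eq c (by omega),
        Nat.mod_eq_of_lt (by omega), ih _ (by omega)]
  refine ⟨S L, (forall_pairs (p := fun _ a b => S a = S L ∧ S b = S L)).2 fun o ho => ?_⟩
  obtain ⟨a0, a1, a2, a3, -, a5, -⟩ := h1 o ho
  obtain ⟨c, hc, j, hj, rfl⟩ := occ_split ho
  have := h2 c hc (l - 1 - j) j (by omega)
  grind

section Order

variable {Q : H → Prop} (hQ : ∀ d d', Q d → Q d' → Q (d + d')) (h0 : ¬ Q 0)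
include hQ

theorem Q_trans {x y z : H} (h1 : Q (x - y)) (h2 : Q (y - z)) : Q (x - z) := by
  simpa using hQ _ _ h1 h2

theorem local_up {u u' z q q' : H} (h1 : u = z ∨ Q (u - z) ∨ Q (z - u))
    (h2 : q = z ∨ Q (q - z) ∨ Q (z - q)) (h3 : q = q' ∨ Q (q - q') ∨ Q (q' - q))
    (h4 : ¬ Q (u' - z)) (h5 : ¬ Q (q - u)) (h6 : ¬ Q (z - q')) (h : Q (u' - u)) :
    Q (q' - q) := by
  have a1 : Q (z - u) := by
    rcases h1 with rfl | h1 | h1
    · exact absurd h h4
    · exact absurd (Q_trans hQ h h1) h4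
    · exact h1
  have a2 : Q (z - q) := by
    rcases h2 with rfl | h2 | h2
    · exact absurd a1 h5
    · exact absurd (Q_trans hQ h2 a1) h5
    · exact h2
  rcases h3 with rfl | h3 | h3
  · exact absurd a2 h6
  · exact absurd (Q_trans hQ a2 h3) h6
  · exact h3

include h0 in
theorem cycle {f : ℕ → H} {n : ℕ} (hn : f n = f 0)
    (h : ∀ j < n, f (j + 1) = f j ∨ Q (f (j + 1) - f j)) : ∀ j < n, ¬ Q (f (j + 1) - f j) := by
  have key : ∀ m ≤ n, (f m = f 0 ∨ Q (f m - f 0)) ∧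
      ((∃ j < m, Q (f (j + 1) - f j)) → Q (f m - f 0)) := by
    intro m
    induction m with
    | zero => exact fun _ => ⟨Or.inl rfl, fun ⟨j, hj, _⟩ => by omega⟩
    | succ m ih =>
      intro hm
      obtain ⟨a1, a2⟩ := ih (by omega)
      have a3 : Q (f (m + 1) - f m) → Q (f (m + 1) - f 0) := fun h' =>
        a1.elim (fun e => e ▸ h') (Q_trans hQ h')
      rcases h m (by omega) with e | h'
      · refine ⟨e ▸ a1, fun ⟨j, hj, h'⟩ => ?_⟩
        rcases Nat.lt_succ_iff_lt_or_eq.1 hj with hj | rfl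
        · exact e ▸ a2 ⟨j, hj, h'⟩
        · exact a3 h'
      · exact ⟨Or.inr (a3 h'), fun _ => a3 h'⟩
  intro j hj h'
  have := (key n le_rfl).2 ⟨j, hj, h'⟩
  rw [hn, sub_self] at this
  exact h0 this

end Order

/-- the constraints hold for the order given by `Q` -/
def Sat (n l : ℕ) (lit : ℕ → ℕ × ℕ) (S : ℕ × ℕ → H) (Q : H → Prop) : Prop :=
  (∀ d d', Q d → Q d' → Q (d + d')) ∧ ¬ Q 0 ∧ ∀ r < 7 * n,
    (r % 7 < 4 → S (fsN lit r) = S (snN l lit r) ∨ Q (S (fsN lit r) - S (snN l lit r)) ∨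
      Q (S (snN l lit r) - S (fsN lit r))) ∧
    (¬ r % 7 < 4 → ¬ Q (S (fsN lit r) - S (snN l lit r)) ∧ ¬ Q (S (snN l lit r) - S (fsN lit r)))

variable {n : ℕ} {S : ℕ × ℕ → H} {Q : H → Prop}

theorem Sat.neg (h : Sat n l lit S Q) : Sat n l lit S fun d => Q (-d) := by
  refine ⟨fun d d' h1 h2 => by simpa only [neg_add] using h.1 _ _ h1 h2, by simpa using h.2.1,
    fun r hr => ?_⟩
  have := h.2.2 r hr
  simp only [neg_sub]
  tauto

theorem Sat.loc (h : Sat n l lit S Q) {o : ℕ} (ho : o < n) :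
    (S (lit o) = S (ng (lit o)) ∨ Q (S (lit o) - S (ng (lit o))) ∨
      Q (S (ng (lit o)) - S (lit o))) ∧
    (Q (S (ng (lit o)) - S (lit o)) → Q (S (2, nxt l o) - S (2, o))) ∧
    (S (lit o) = S (ng (lit o)) →
      S (lit o) = S (3, o) ∧ S (2, o) = S (3, o) ∧ S (2, o) = S (2, nxt l o)) := by
  obtain ⟨a0, a1, a2, a3, a4, a5, a6⟩ := (forall_pairs (p := fun t a b =>
    (t < 4 → S a = S b ∨ Q (S a - S b) ∨ Q (S b - S a)) ∧
      (¬ t < 4 → ¬ Q (S a - S b) ∧ ¬ Q (S b - S a)))).1 h.2.2 o ho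
  have a0 := a0.1 (by omega)
  have a1 := a1.1 (by omega)
  have a2 := a2.1 (by omega)
  have a3 := a3.1 (by omega)
  have a4 := a4.2 (by omega)
  have a5 := a5.2 (by omega)
  have a6 := a6.2 (by omega)
  refine ⟨a0, local_up h.1 a1 a2 a3 a4.1 a5.2 a6.1, fun e => ?_⟩
  have b1 : S (lit o) = S (3, o) := by rw [← e] at a4; tauto
  have b2 : S (2, o) = S (3, o) := by rw [b1] at a5; tauto
  exact ⟨b1, b2, by rw [← b2] at a6; tauto⟩

/-- a clause with a true literal has a false literal -/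
theorem Sat.clause (h : Sat (C * l) l lit S Q) {c j : ℕ} (hc : c < C) (hj : j < l)
    (hq : Q (S (ng (lit (c * l + j))) - S (lit (c * l + j)))) :
    ∃ i < l, Q (S (lit (c * l + i)) - S (ng (lit (c * l + i)))) := by
  by_contra hn
  push Not at hn
  have e : ∀ i < l, S (2, nxt l (c * l + i)) = S (2, c * l + (i + 1) % l) :=
    fun i hi => by rw [nxt_eq c hi]
  refine cycle h.1 h.2.1 (f := fun i => S (2, c * l + i % l)) (n := l) (by simp)
    (fun i hi => ?_) j hj ?_
  · obtain ⟨a1, a2, a3⟩ := h.loc (occ_lt hc hi)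
    simp only [Nat.mod_eq_of_lt hi, ← e i hi]
    rcases a1 with a1 | a1 | a1
    · exact Or.inl (a3 a1).2.2.symm
    · exact absurd a1 (hn i hi)
    · exact Or.inr (a2 a1)
  · simp only [Nat.mod_eq_of_lt hj, ← e j hj]
    exact (h.loc (occ_lt hc hj)).2.1 hq

theorem Sat.clause' (h : Sat (C * l) l lit S Q) {c j : ℕ} (hc : c < C) (hj : j < l)
    (hq : Q (S (lit (c * l + j)) - S (ng (lit (c * l + j))))) :
    ∃ i < l, Q (S (ng (lit (c * l + i))) - S (lit (c * l + i))) := by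
  simpa only [neg_sub] using h.neg.clause hc hj (by simpa only [neg_sub] using hq)

theorem Sat.zero (h : Sat n l lit S Q) (hz : ∀ o < n, S (lit o) = S (ng (lit o))) :
    ∀ r < 7 * n, S (fsN lit r) = S (snN l lit r) := by
  refine (forall_pairs (p := fun _ a b => S a = S b)).2 fun o ho => ?_
  have h1 := hz o ho
  have := (h.loc ho).2.2 h1
  grind

theorem realise (hlit : ∀ o, (lit o).1 ≤ 1) (σ : ℕ → Prop)
    (hT : ∀ c < C, ∃ j < l, ((lit (c * l + j)).1 = 0 ↔ σ (lit (c * l + j)).2))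
    (hF : ∀ c < C, ∃ j < l, ¬ ((lit (c * l + j)).1 = 0 ↔ σ (lit (c * l + j)).2)) :
    ∃ a b : ℕ × ℕ → ℝ, ∀ r < 7 * (C * l),
      (r % 7 < 4 → 0 < (a (fsN lit r) - a (snN l lit r)) * (b (fsN lit r) - b (snN l lit r))) ∧
      (¬ r % 7 < 4 →
        (a (fsN lit r) - a (snN l lit r)) * (b (fsN lit r) - b (snN l lit r)) < 0) := by
  classical
  let val : ℕ × ℕ → Prop := fun x => (x.1 = 0 ↔ σ x.2)
  let nT : ℕ → ℝ := fun c => ∑ j ∈ Finset.range l, if val (lit (c * l + j)) then 1 else 0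
  let nF : ℕ → ℝ := fun c => ∑ j ∈ Finset.range l, if val (lit (c * l + j)) then 0 else 1
  let step : ℕ → ℕ → ℝ := fun c j => if val (lit (c * l + j)) then nF c else -nT c
  let μ : ℕ → ℝ := fun o => ∑ j ∈ Finset.range (o % l), step (o / l) j
  have hnT : ∀ c < C, 1 ≤ nT c := fun c hc => by
    obtain ⟨j, hj, h⟩ := hT c hc
    have := Finset.single_le_sum (f := fun j => if val (lit (c * l + j)) then (1 : ℝ) else 0)
      (fun i _ => by split_ifs <;> norm_num) (Finset.mem_range.2 hj)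
    rwa [if_pos h] at this
  have hnF : ∀ c < C, 1 ≤ nF c := fun c hc => by
    obtain ⟨j, hj, h⟩ := hF c hc
    have := Finset.single_le_sum (f := fun j => if val (lit (c * l + j)) then (0 : ℝ) else 1)
      (fun i _ => by split_ifs <;> norm_num) (Finset.mem_range.2 hj)
    rwa [if_neg h] at this
  have hsum : ∀ c, ∑ j ∈ Finset.range l, step c j = 0 := fun c => by
    have : ∀ j, step c j = (if val (lit (c * l + j)) then 1 else 0) * nF c -
        (if val (lit (c * l + j)) then 0 else 1) * nT c := fun j => by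
      simp only [step]; split_ifs <;> simp
    simp only [this, Finset.sum_sub_distrib, ← Finset.sum_mul]
    change nT c * nF c - nF c * nT c = 0
    ring
  have hμ0 : ∀ c, ∀ j < l, μ (c * l + j) = ∑ i ∈ Finset.range j, step c i := fun c j hj => by
    have h1 : (c * l + j) / l = c := by
      rw [mul_comm, Nat.mul_add_div (by omega), Nat.div_eq_of_lt hj, add_zero]
    simp only [μ, h1, Nat.mul_add_mod_of_lt hj]
  have hμ : ∀ c, ∀ j < l, μ (nxt l (c * l + j)) = μ (c * l + j) + step c j := fun c j hj => by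
    rw [nxt_eq c hj, hμ0 c _ (Nat.mod_lt _ (by omega)), hμ0 c j hj, ← Finset.sum_range_succ,
      succ_mod hj]
    split_ifs with h
    · rfl
    · rw [show j + 1 = l by omega, hsum]; rfl
  let K : ℝ := 2 + ∑ o ∈ Finset.range (C * l), |μ o|
  have hK : ∀ o < C * l, |μ o| ≤ K - 2 := fun o ho => by
    have := Finset.single_le_sum (f := fun o => |μ o|) (fun i _ => abs_nonneg _)
      (Finset.mem_range.2 ho)
    simp only [K]; linarith
  let a : ℕ × ℕ → ℝ := fun x => if x.1 ≤ 1 then (if val x then -K else -K + 1) else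
    if x.1 = 2 then μ x.2 else if val (lit x.2) then μ x.2 + 1 / 2 else -K + 1 / 2
  let b : ℕ × ℕ → ℝ := fun x => if x.1 ≤ 1 then (if val x then K else K + 1) else
    if x.1 = 2 then μ x.2 else if val (lit x.2) then K + 1 / 2 else μ x.2 - 1 / 2
  refine ⟨a, b, (forall_pairs (p := fun t x y => (t < 4 → 0 < (a x - a y) * (b x - b y)) ∧
    (¬ t < 4 → (a x - a y) * (b x - b y) < 0))).2 fun o ho => ?_⟩
  obtain ⟨c, hc, j, hj, rfl⟩ := occ_split ho
  have k1 := abs_le.1 (hK _ ho)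
  have k2 := abs_le.1 (hK (nxt l (c * l + j))
    (by rw [nxt_eq c hj]; exact occ_lt hc (Nat.mod_lt _ (by omega))))
  have k3 := hμ c j hj
  have k4 := hnT c hc
  have k5 := hnF c hc
  have k6 := hlit (c * l + j)
  have k7 : (ng (lit (c * l + j))).1 ≤ 1 := Nat.sub_le _ _
  have k8 : val (ng (lit (c * l + j))) ↔ ¬ val (lit (c * l + j)) := by
    have : (ng (lit (c * l + j))).1 = 0 ↔ ¬ (lit (c * l + j)).1 = 0 := by simp only [ng]; omega
    simp only [val, this]
    change (_ ↔ σ (lit (c * l + j)).2) ↔ _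
    tauto
  by_cases hv : val (lit (c * l + j))
  · simp only [step, hv, if_true] at k3
    simp only [a, b, k6, k7, k8, hv, if_true, if_false, not_true, show ¬ (2 ≤ 1) by omega,
      show ¬ (3 ≤ 1) by omega, show ¬ (3 = 2) by omega]
    refine ⟨⟨fun _ => ?_, by omega⟩, ⟨fun _ => ?_, by omega⟩, ⟨fun _ => ?_, by omega⟩,
      ⟨fun _ => ?_, by omega⟩, ⟨by omega, fun _ => ?_⟩, ⟨by omega, fun _ => ?_⟩,
      ⟨by omega, fun _ => ?_⟩⟩
    · exact mul_pos_of_neg_of_neg (by linarith) (by linarith)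
    · exact mul_pos_of_neg_of_neg (by linarith) (by linarith)
    · exact mul_pos_of_neg_of_neg (by linarith) (by linarith)
    · exact mul_pos_of_neg_of_neg (by linarith) (by linarith)
    · exact mul_neg_of_neg_of_pos (by linarith) (by linarith)
    · exact mul_neg_of_neg_of_pos (by linarith) (by linarith)
    · exact mul_neg_of_neg_of_pos (by linarith) (by linarith)
  · simp only [step, hv, if_false] at k3
    simp only [a, b, k6, k7, k8, hv, if_true, if_false, not_false_eq_true,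
      show ¬ (2 ≤ 1) by omega, show ¬ (3 ≤ 1) by omega, show ¬ (3 = 2) by omega]
    refine ⟨⟨fun _ => ?_, by omega⟩, ⟨fun _ => ?_, by omega⟩, ⟨fun _ => ?_, by omega⟩,
      ⟨fun _ => ?_, by omega⟩, ⟨by omega, fun _ => ?_⟩, ⟨by omega, fun _ => ?_⟩,
      ⟨by omega, fun _ => ?_⟩⟩
    · exact mul_pos (by linarith) (by linarith)
    · exact mul_pos (by linarith) (by linarith)
    · exact mul_pos (by linarith) (by linarith)
    · exact mul_pos (by linarith) (by linarith)
    · exact mul_neg_of_neg_of_pos (by linarith) (by linarith)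
    · exact mul_neg_of_neg_of_pos (by linarith) (by linarith)
    · exact mul_neg_of_neg_of_pos (by linarith) (by linarith)

end Pool.Agent.P.MP_0f810e_lc
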