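import Pool.Agent.P.MP_0f810e_lc.Logic
import Pool.Agent.P.MP_ba7db8_lc.Main
import Pool.Agent.Lib.Helper47.Pad

/-! The reduction from cliques, and its running time. -/

namespace Pool.Agent.P.MP_0f810e_lc

open Pool.Agent.P.MP_ba7db8_lc Pool.Agent.Lib.Helper47 Turing

open Classical in
/-- the literals of the clauses -/
noncomputable def litN (Γ : SimpleGraph ℕ) (nv D o : ℕ) : ℕ × ℕ :=
  if o / (D + 2) < nv * nv then
    if o % (D + 2) = 0 then
      (if o / (D + 2) / nv ≠ o / (D + 2) % nv ∧ ¬ Γ.Adj (o / (D + 2) / nv) (o / (D + 2) % nv)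
        then 1 else 0, o / (D + 2) / nv)
    else if o % (D + 2) = 1 then
      (1, if o / (D + 2) / nv ≠ o / (D + 2) % nv ∧ ¬ Γ.Adj (o / (D + 2) / nv) (o / (D + 2) % nv)
        then o / (D + 2) % nv else nv)
    else (0, nv)
  else if o % (D + 2) < D then (0, (o / (D + 2) - nv * nv) * D + o % (D + 2)) else (0, nv)

variable {Γ : SimpleGraph ℕ} {nv D k : ℕ}

theorem occ_div (c : ℕ) {j l : ℕ} (hj : j < l) : (c * l + j) / l = c := by
  rw [mul_comm, Nat.mul_add_div (by omega), Nat.div_eq_of_lt hj, add_zero]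

theorem lit_le (o : ℕ) : (litN Γ nv D o).1 ≤ 1 := by
  unfold litN; split_ifs <;> simp

open Classical in
theorem lit_pair {s t j : ℕ} (hs : s < nv) (ht : t < nv) (hj : j < D + 2) :
    litN Γ nv D ((s * nv + t) * (D + 2) + j) =
      if j = 0 then (if s ≠ t ∧ ¬ Γ.Adj s t then 1 else 0, s)
      else if j = 1 then (1, if s ≠ t ∧ ¬ Γ.Adj s t then t else nv) else (0, nv) := by
  simp only [litN, occ_div _ hj, Nat.mul_add_mod_of_lt hj, occ_div _ ht, Nat.mul_add_mod_of_lt ht,
    occ_lt hs ht, if_true]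

theorem lit_part (π : ℕ) {j : ℕ} (hj : j < D + 2) :
    litN Γ nv D ((nv * nv + π) * (D + 2) + j) = if j < D then (0, π * D + j) else (0, nv) := by
  simp only [litN, occ_div _ hj, Nat.mul_add_mod_of_lt hj, Nat.add_sub_cancel_left]
  rw [if_neg (by omega)]

theorem clause_cases {c : ℕ} (hc : c < nv * nv + k) :
    (∃ s < nv, ∃ t < nv, c = s * nv + t) ∨ ∃ π < k, c = nv * nv + π := by
  by_cases h : c < nv * nv
  · exact Or.inl (occ_split h)
  · exact Or.inr ⟨c - nv * nv, by omega, by omega⟩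

theorem lit_last (hD : 0 < D) {c : ℕ} (hc : c < nv * nv + k) :
    litN Γ nv D (c * (D + 2) + (D + 2 - 1)) = (0, nv) := by
  rcases clause_cases hc with ⟨s, hs, t, ht, rfl⟩ | ⟨π, -, rfl⟩
  · rw [lit_pair hs ht (by omega), if_neg (by omega), if_neg (by omega)]
  · rw [lit_part π (by omega), if_neg (by omega)]

theorem clique_of_sat (hD : 0 < D) {S : ℕ × ℕ → H} {Q : H → Prop}
    (h : Sat ((k * D * (k * D) + k) * (D + 2)) (D + 2) (litN Γ (k * D) D) S Q)
    (hz : Q (S (0, k * D) - S (1, k * D))) : ∃ K, Γ.IsNClique k K := by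
  classical
  have asym : ∀ x y, Q (x - y) → ¬ Q (y - x) := fun x y h1 h2 =>
    h.2.1 (by simpa using Q_trans h.1 h1 h2)
  have key : ∀ c < k * D * (k * D) + k, ∃ i < D + 2,
      Q (S (ng (litN Γ (k * D) D (c * (D + 2) + i))) - S (litN Γ (k * D) D (c * (D + 2) + i))) :=
    fun c hc => h.clause' hc (show D + 2 - 1 < D + 2 by omega) (by rw [lit_last hD hc]; exact hz)
  have h1 : ∀ π, ∃ j, π < k → j < D ∧ Q (S (1, π * D + j) - S (0, π * D + j)) := by
    intro π
    by_cases hπ : π < k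
    · obtain ⟨i, hi, h⟩ := key (k * D * (k * D) + π) (by omega)
      rw [lit_part π hi] at h
      split_ifs at h with h'
      · exact ⟨i, fun _ => ⟨h', h⟩⟩
      · exact absurd h (asym _ _ hz)
    · exact ⟨0, fun h => absurd h hπ⟩
  choose f hf using h1
  have h2 : ∀ s < k * D, ∀ t < k * D, s ≠ t → Q (S (1, s) - S (0, s)) →
      Q (S (1, t) - S (0, t)) → Γ.Adj s t := by
    intro s hs t ht hst a b
    by_contra hn
    obtain ⟨i, hi, h⟩ := key (s * (k * D) + t) (by have := occ_lt hs ht; omega)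
    rw [lit_pair hs ht hi] at h
    simp only [ne_eq, hst, hn, not_false_eq_true, and_self, if_true] at h
    split_ifs at h
    · exact asym _ _ a h
    · exact asym _ _ b h
    · exact asym _ _ hz h
  refine ⟨(Finset.range k).image fun π => π * D + f π, ?_, ?_⟩
  · intro s hs t ht hne
    obtain ⟨π, hπ, rfl⟩ := Finset.mem_image.1 (Finset.mem_coe.1 hs)
    obtain ⟨π', hπ', rfl⟩ := Finset.mem_image.1 (Finset.mem_coe.1 ht)
    rw [Finset.mem_range] at hπ hπ'
    exact h2 _ (occ_lt hπ (hf π hπ).1) _ (occ_lt hπ' (hf π' hπ').1) hne (hf π hπ).2 (hf π' hπ').2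
  · rw [Finset.card_image_of_injOn, Finset.card_range]
    intro π hπ π' hπ' e
    have := congrArg (· / D) e
    simpa only [occ_div _ (hf π (by simpa using hπ)).1, occ_div _ (hf π' (by simpa using hπ')).1]
      using this

/-- the number of constraints -/
def numR (k D : ℕ) : ℕ := 7 * ((k * D * (k * D) + k) * (D + 2))

/-- the braced polygon graph of a clique instance -/
noncomputable def cgr (Γ : SimpleGraph ℕ) (k D : ℕ) : SimpleGraph (Fin (18 * numR k D)) :=
  gr (numR k D) (fsN (litN Γ (k * D) D)) (snN (D + 2) (litN Γ (k * D) D))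

theorem numR_pos (hk : 0 < k) : 0 < numR k D := by unfold numR; positivity

theorem cgr_gen (hD : 0 < D) : GenRigid (cgr Γ k D) :=
  generic (conn fun _ hc => lit_last hD hc)

theorem cgr_sound (hD : 0 < D) (hk : 0 < k) (h : ¬ PropC (cgr Γ k D)) :
    ∃ K, Γ.IsNClique k K := by
  obtain ⟨S, Q, h1, h2, h3, h4, h5⟩ := sound (numR_pos hk) h
  have hs : Sat ((k * D * (k * D) + k) * (D + 2)) (D + 2) (litN Γ (k * D) D) S Q :=
    ⟨h1, h2, fun r hr => ⟨h3 r hr, h4 r hr⟩⟩
  have hz := (hs.loc (occ_lt (show 0 < k * D * (k * D) + k by omega)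
    (show D + 2 - 1 < D + 2 by omega))).1
  rw [lit_last hD (show 0 < k * D * (k * D) + k by omega)] at hz
  rcases hz with hz | hz | hz
  swap
  · exact clique_of_sat hD hs hz
  swap
  · exact clique_of_sat hD hs.neg (by simpa only [neg_sub, ng] using hz)
  refine absurd (conn (fun _ hc => lit_last hD hc) S (hs.zero fun o ho => ?_)) h5
  have hz' : S (0, k * D) = S (1, k * D) := hz
  have asym : ∀ x y, Q (x - y) → ¬ Q (y - x) := fun x y a b =>
    h2 (by simpa using Q_trans h1 a b)
  have key : ∀ s < k * D, S (0, s) = S (1, s) := by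
    intro s hs'
    have hc : s * (k * D) + s < k * D * (k * D) + k := by have := occ_lt hs' hs'; omega
    have e0 : litN Γ (k * D) D ((s * (k * D) + s) * (D + 2) + 0) = (0, s) := by
      rw [lit_pair hs' hs' (by omega)]; simp
    have a := (hs.loc (occ_lt hc (show 0 < D + 2 by omega))).1
    rw [e0] at a
    rcases a with a | a | a
    · exact a
    · obtain ⟨i, hi, b⟩ := hs.clause' hc (show 0 < D + 2 by omega) (by rw [e0]; exact a)
      rw [lit_pair hs' hs' hi] at b
      simp only [ne_eq, not_true, false_and, if_false] at b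
      split_ifs at b
      · exact absurd b (asym _ _ a)
      · exact absurd (by simpa [ng, hz'] using b) h2
      · exact absurd (by simpa [ng, hz'] using b) h2
    · obtain ⟨i, hi, b⟩ := hs.clause hc (show 0 < D + 2 by omega) (by rw [e0]; exact a)
      rw [lit_pair hs' hs' hi] at b
      simp only [ne_eq, not_true, false_and, if_false] at b
      split_ifs at b
      · exact absurd b (asym _ _ a)
      · exact absurd (by simpa [ng, hz'] using b) h2
      · exact absurd (by simpa [ng, hz'] using b) h2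
  obtain ⟨c, hc, j, hj, rfl⟩ := occ_split ho
  rcases clause_cases hc with ⟨s, hs, t, ht, rfl⟩ | ⟨π, hπ, rfl⟩
  · rw [lit_pair hs ht hj]
    split_ifs
    · exact (key s hs).symm
    · exact key s hs
    · exact (key t ht).symm
    · exact hz'.symm
    · exact hz'
  · rw [lit_part π hj]
    split_ifs with h
    · exact key _ (occ_lt hπ h)
    · exact hz'

theorem cgr_complete (hD : 0 < D) (hk : 2 ≤ k)
    (hΓ : ∀ s t, Γ.Adj s t → s / D ≠ t / D ∧ s / D < k) {K : Finset ℕ} (hK : Γ.IsNClique k K) :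
    ¬ PropC (cgr Γ k D) := by
  classical
  have hlt : ∀ s ∈ K, s / D < k := fun s hs => by
    obtain ⟨t, ht, hne⟩ := Finset.exists_mem_ne (by rw [hK.card_eq]; omega) s
    exact (hΓ _ _ (hK.isClique hs ht hne.symm)).2
  have hsurj : ∀ π < k, ∃ s ∈ K, s / D = π := by
    have hinj : Set.InjOn (fun s => s / D) K := by
      intro s hs t ht h
      by_contra hne
      exact (hΓ _ _ (hK.isClique hs ht hne)).1 h
    have hsub : K.image (fun s => s / D) ⊆ Finset.range k := by
      intro π hπ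
      obtain ⟨s, hs, rfl⟩ := Finset.mem_image.1 hπ
      exact Finset.mem_range.2 (hlt s hs)
    have heq := Finset.eq_of_subset_of_card_le hsub
      (by rw [Finset.card_image_of_injOn hinj, hK.card_eq, Finset.card_range])
    intro π hπ
    have : π ∈ K.image (fun s => s / D) := heq ▸ Finset.mem_range.2 hπ
    exact Finset.mem_image.1 this
  have hz : k * D ∉ K := fun h => by
    have := hlt _ h
    rw [Nat.mul_div_cancel _ hD] at this
    omega
  suffices hT : ∀ c < k * D * (k * D) + k, ∃ j < D + 2,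
      ((litN Γ (k * D) D (c * (D + 2) + j)).1 = 0 ↔ (litN Γ (k * D) D (c * (D + 2) + j)).2 ∈ K) by
    obtain ⟨a, b, hab⟩ := realise lit_le (· ∈ K) hT
      (fun c hc => ⟨D + 2 - 1, by omega, by rw [lit_last hD hc]; simpa using hz⟩)
    exact complete (numR_pos (by omega)) a b (fun r hr => (hab r hr).1) fun r hr => (hab r hr).2
  intro c hc
  rcases clause_cases hc with ⟨s, hs, t, ht, rfl⟩ | ⟨π, hπ, rfl⟩
  · by_cases h : s ≠ t ∧ ¬ Γ.Adj s t
    · by_cases h' : s ∈ K
      · refine ⟨1, by omega, ?_⟩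
        have : t ∉ K := fun h'' => h.2 (hK.isClique h' h'' h.1)
        rw [lit_pair hs ht (by omega)]
        simp [h, this]
      · refine ⟨0, by omega, ?_⟩
        rw [lit_pair hs ht (by omega)]
        simp [h, h']
    · refine ⟨1, by omega, ?_⟩
      rw [lit_pair hs ht (by omega)]
      simp only [h, if_false]
      simpa using hz
  · obtain ⟨s, hs, rfl⟩ := hsurj π hπ
    have h1 := Nat.mod_lt s hD
    refine ⟨s % D, by omega, ?_⟩
    rw [lit_part _ (by omega), if_pos h1, Nat.div_add_mod']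
    simpa using hs

section PT

variable {α : Type} [Enc α]

theorem pt_chord {R i : α → ℕ} (hR : PT R) (hi : PT i) : PT fun a => chord (R a) (i a) :=
  PTP.ite (PTP.lt hi (by fun_prop)) (by fun_prop)
    (PTP.ite (PTP.lt hi (by fun_prop)) (by fun_prop) (by fun_prop))

theorem pt_other {R e : α → ℕ} (hR : PT R) (he : PT e) : PT fun a => other (R a) (e a) :=
  PTP.ite (PTP.lt (by fun_prop) (PT.const 4)) (by fun_prop) (by fun_prop)

theorem ptp_bar {R i j : α → ℕ} (hR : PT R) (hi : PT i) (hj : PT j) :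
    PTP fun a => bar (R a) (i a) (j a) :=
  PTP.and (PTP.le (by fun_prop) hi) (PTP.and (PTP.lt hi (by fun_prop))
    (PTP.eq hj (pt_other hR (pt_chord hR hi))))

variable (q : Par) {X : α → List Bool}

/-- the literals of the reduction -/
noncomputable def plit (x : List Bool) : ℕ → ℕ × ℕ :=
  litN (q.Gam x) (q.k x * q.d ^ q.M) (q.d ^ q.M)

theorem pt_lit (hd : 0 < q.d) (hX : PT X) {o : α → ℕ} (ho : PT o) :
    PT fun a => plit q (X a) (o a) := by
  classical
  have hk := q.pt_k hX
  have h1 : PTP fun a => o a / (q.d ^ q.M + 2) / (q.k (X a) * q.d ^ q.M) ≠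
      o a / (q.d ^ q.M + 2) % (q.k (X a) * q.d ^ q.M) ∧
      ¬ (q.Gam (X a)).Adj (o a / (q.d ^ q.M + 2) / (q.k (X a) * q.d ^ q.M))
        (o a / (q.d ^ q.M + 2) % (q.k (X a) * q.d ^ q.M)) :=
    PTP.and (PTP.eq (by fun_prop) (by fun_prop)).not
      (q.ptp_Gam hd hX (by fun_prop) (by fun_prop)).not
  exact PTP.ite (PTP.lt (by fun_prop) (by fun_prop))
    (PTP.ite (PTP.eq (by fun_prop) (PT.const 0))
      (PT.prodMk (PTP.ite h1 (PT.const 1) (PT.const 0)) (by fun_prop))
      (PTP.ite (PTP.eq (by fun_prop) (PT.const 1))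
        (PT.prodMk (PT.const 1) (PTP.ite h1 (by fun_prop) (by fun_prop))) (by fun_prop)))
    (PTP.ite (PTP.lt (by fun_prop) (by fun_prop)) (by fun_prop) (by fun_prop))

theorem pt_ng {f : α → ℕ × ℕ} (hf : PT f) : PT fun a => ng (f a) := by
  unfold ng; fun_prop

theorem pt_fs (hd : 0 < q.d) (hX : PT X) {r : α → ℕ} (hr : PT r) :
    PT fun a => fsN (plit q (X a)) (r a) := by
  have h7 : PT fun a => r a % 7 := by fun_prop
  have h := pt_lit q hd hX (o := fun a => r a / 7) (by fun_prop)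
  exact PTP.ite ((PTP.eq h7 (PT.const 0)).or ((PTP.eq h7 (PT.const 1)).or (PTP.eq h7 (PT.const 5))))
    h (PTP.ite ((PTP.eq h7 (PT.const 2)).or (PTP.eq h7 (PT.const 3))) (by fun_prop)
      (PTP.ite (PTP.eq h7 (PT.const 4)) (pt_ng h) (by fun_prop)))

theorem pt_sn (hd : 0 < q.d) (hX : PT X) {r : α → ℕ} (hr : PT r) :
    PT fun a => snN (q.d ^ q.M + 2) (plit q (X a)) (r a) := by
  have h7 : PT fun a => r a % 7 := by fun_prop
  have h := pt_lit q hd hX (o := fun a => r a / 7) (by fun_prop)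
  exact PTP.ite (PTP.eq h7 (PT.const 0)) (pt_ng h)
    (PTP.ite ((PTP.eq h7 (PT.const 1)).or ((PTP.eq h7 (PT.const 2)).or (PTP.eq h7 (PT.const 4))))
      (by fun_prop) (PTP.ite (PTP.eq h7 (PT.const 5)) (by fun_prop) (by unfold nxt; fun_prop)))

theorem pt_R (hX : PT X) : PT fun a => numR (q.k (X a)) (q.d ^ q.M) := by
  have hk := q.pt_k hX
  unfold numR; fun_prop

theorem ps_R (hX : PT X) : PS fun a => numR (q.k (X a)) (q.d ^ q.M) :=
  (PB.const 7).mul ((((q.ps_nv hX).mul (q.ps_nv hX)).add (q.ps_k hX)).mul (PB.const _))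

theorem pt_body (hd : 0 < q.d) (hX : PT X) {i : α → ℕ} (hi : PT i) :
    PT fun a => body (numR (q.k (X a)) (q.d ^ q.M)) (fsN (plit q (X a)))
      (snN (q.d ^ q.M + 2) (plit q (X a))) (i a) := by
  have hR := pt_R q hX
  have hc := pt_chord hR hi
  exact PTP.ite ((PTP.le (by fun_prop) hi).and (PTP.lt hi (by fun_prop)))
    (pt_fs q hd hX (by fun_prop)) (pt_sn q hd hX (by fun_prop))

theorem ptp_adj (hd : 0 < q.d) (hX : PT X) {u v : α → ℕ} (hu : PT u) (hv : PT v) :
    PTP fun a => adjN (numR (q.k (X a)) (q.d ^ q.M)) (fsN (plit q (X a)))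
      (snN (q.d ^ q.M + 2) (plit q (X a))) (u a) (v a) := by
  have hR := pt_R q hX
  exact PTP.and (PTP.eq hu hv).not (PTP.or (PTP.eq hv (by fun_prop))
    (PTP.or (PTP.eq hu (by fun_prop)) (PTP.and (PTP.eq (by fun_prop) (PT.const 0))
      (PTP.and (PTP.eq (by fun_prop) (PT.const 0))
        (PTP.or (PTP.eq (pt_body q hd hX (by fun_prop)) (pt_body q hd hX (by fun_prop)))
          (PTP.or (ptp_bar hR (by fun_prop) (by fun_prop))
            (ptp_bar hR (by fun_prop) (by fun_prop))))))))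

theorem pt_out (hd : 0 < q.d) : PT fun x => adjBits (cgr (q.Gam x) (q.k x) (q.d ^ q.M)) := by
  classical
  have hN : ∀ {β : Type} [Enc β] {Y : β → List Bool}, PT Y →
      PT fun b => List.range (18 * numR (q.k (Y b)) (q.d ^ q.M)) := fun hY =>
    PT.range (PT.mul (PT.const 18) (pt_R q hY)) ((PB.const 18).mul (ps_R q hY))
  have h : PT fun x => (List.range (18 * numR (q.k x) (q.d ^ q.M))).flatMap fun u =>
      (List.range (18 * numR (q.k x) (q.d ^ q.M))).map fun v =>
        decide (adjN (numR (q.k x) (q.d ^ q.M)) (fsN (plit q x))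
          (snN (q.d ^ q.M + 2) (plit q x)) u v) := by
    refine PT.flatMap (g := fun x u => (List.range (18 * numR (q.k x) (q.d ^ q.M))).map fun v =>
        decide (adjN (numR (q.k x) (q.d ^ q.M)) (fsN (plit q x))
          (snN (q.d ^ q.M + 2) (plit q x)) u v)) ?_ (hN PT.id)
    refine PT.map (g := fun (y : List Bool × ℕ) v =>
        decide (adjN (numR (q.k y.1) (q.d ^ q.M)) (fsN (plit q y.1))
          (snN (q.d ^ q.M + 2) (plit q y.1)) y.2 v)) ?_ (hN (by fun_prop))
    exact ptp_adj q hd (by fun_prop) (by fun_prop) (by fun_prop)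
  refine h.of_eq fun x => ?_
  have hr : ∀ n, List.range n = (List.finRange n).map Fin.val := fun n => by
    apply List.ext_getElem <;> simp
  rw [adjBits, hr, List.flatMap_map]
  congr 1
  funext u
  rw [List.map_map]
  rfl

end PT

theorem main (L : Set (List Bool)) (hL : InNP L) :
    ∃ f : List Bool → List Bool, PT f ∧
      ∀ x, ∃ (N : ℕ) (G : SimpleGraph (Fin N)), f x = adjBits G ∧ Braced G ∧ GenRigid G ∧
        (x ∈ L ↔ ¬ PropC G) := by
  obtain ⟨V, P, ⟨h⟩, hV⟩ := hL
  obtain ⟨q, hqg, -, -, hd, hq⟩ := exists_par h P 2 0 le_rfl fun _ _ _ _ => True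
  refine ⟨_, pt_out q hd, fun x => ?_⟩
  have hD : 0 < q.d ^ q.M := pow_pos hd _
  have hk : 2 ≤ q.k x := by
    have : (q.T x + 1) * q.J x + 5 < q.k x := by
      rw [Par.k, hqg]; exact Nat.lt_size_self _
    omega
  refine ⟨_, _, rfl, braced (numR_pos (by omega)), cgr_gen hD, ?_⟩
  rw [hV, ← hq]
  exact ⟨fun ⟨K, hK⟩ => cgr_complete hD hk (fun s t h => ⟨h.1, h.2.1.1⟩) hK,
    cgr_sound hD (by omega)⟩

theorem main' (L : Set (List Bool)) (hL : InNP L) :
    (∃ f : List Bool → List Bool, Nonempty (TM2ComputableInPolyTime id id f) ∧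
      ∀ x, ∃ (N : ℕ) (G : SimpleGraph (Fin N)), f x = adjBits G ∧ Braced G ∧ GenRigid G ∧
        (x ∈ L ↔ ¬ PropC G)) ∧
    ∀ A : List Bool → Bool, Nonempty (TM2ComputableInPolyTime id Computability.encodeBool A) →
      (∀ (N : ℕ) (G : SimpleGraph (Fin N)), Braced G → GenRigid G →
        (A (adjBits G) = true ↔ PropC G)) →
      ∃ B : List Bool → Bool, Nonempty (TM2ComputableInPolyTime id Computability.encodeBool B) ∧
        ∀ x, B x = true ↔ x ∈ L := by
  obtain ⟨f, hf, h⟩ := main L hL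
  obtain ⟨hf'⟩ := PT.computableInPolyTime id id f hf fun _ => rfl
  refine ⟨⟨f, ⟨hf'⟩, h⟩, fun A ⟨hA⟩ hA' => ⟨not ∘ (A ∘ f), ?_, fun x => ?_⟩⟩
  · obtain ⟨r, hr⟩ := ps_length hf
    obtain ⟨h1⟩ := computableInPolyTime_comp hf' hA (r.comp (4 * Polynomial.X + 1)) fun a =>
      (hr a).trans (by simpa using eval_mono r (size_bits_le a))
    obtain ⟨h2⟩ := PT.computableInPolyTime Computability.encodeBool Computability.encodeBool not
      (F := fun l => l.map not) (by fun_prop) fun _ => rfl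
    exact computableInPolyTime_comp h1 h2 1 fun a => by simp [Computability.encodeBool]
  · obtain ⟨N, G, h1, h2, h3, h4⟩ := h x
    rw [h4, ← hA' N G h2 h3, ← h1]
    simp

end Pool.Agent.P.MP_0f810e_lc
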